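import Mathlib

namespace Pool.Agent.Results.MP_a33f4b_pr.Slower
open MeasureTheory ProbabilityTheory Set Filter
open scoped ENNReal Topology

/-- the mean-split algorithm -/
noncomputable def T : ℕ → Measure ℝ → Measure ℝ
  | 0, μ => .dirac (∫ x, x ∂μ)
  | n + 1, μ => μ (Iio (∫ x, x ∂μ)) • T n (μ[|Iio (∫ x, x ∂μ)]) +
      μ (Ici (∫ x, x ∂μ)) • T n (μ[|Ici (∫ x, x ∂μ)])

/-- Wasserstein-1 distance on the line -/
noncomputable def W1 (μ ν : Measure ℝ) : ℝ≥0∞ := ∫⁻ t, ‖μ.real (Iic t) - ν.real (Iic t)‖ₑ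

lemma T_univ (n : ℕ) (μ : Measure ℝ) [IsProbabilityMeasure μ] : T n μ univ = 1 := by
  induction n generalizing μ with
  | zero => simp [T]
  | succ n ih =>
    have : ∀ s, μ s * T n (μ[|s]) univ = μ s := fun s => by
      by_cases h : μ s = 0
      · simp [h]
      · have := cond_isProbabilityMeasure h
        rw [ih, mul_one]
    simp only [T, Measure.add_apply, Measure.smul_apply, smul_eq_mul, this]
    rw [← compl_Iio, prob_add_prob_compl measurableSet_Iio]

lemma T_bdd (n : ℕ) (μ : Measure ℝ) [IsZeroOrProbabilityMeasure μ] {b : ℝ} (hb : 0 ≤ b)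
    (h : μ (Ioi b) = 0) : T n μ (Ioi b) = 0 := by
  induction n generalizing μ with
  | zero =>
    have : ∫ x, x ∂μ ≤ b := by
      by_cases hi : Integrable (fun x => x) μ
      · refine (integral_mono_ae hi (integrable_const b) (by simpa [EventuallyLE, ae_iff, Ioi] using h)).trans ?_
        simpa using mul_le_of_le_one_left hb measureReal_le_one
      · rwa [integral_undef hi]
    simpa [T] using this
  | succ n ih => simp [T, ih _ (cond_absolutelyContinuous h)]

noncomputable def piece (i : ℕ) : Measure ℝ :=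
  ENNReal.ofReal (25 / 4 * (1 / 4) ^ i) • volume.restrict (Ioc ((3 / 2) ^ i) (11 / 10 * (3 / 2) ^ i))
noncomputable def μ : Measure ℝ := .sum piece

lemma pint (i k : ℕ) : Integrable (fun x => x ^ k) (piece i) ∧ ∫ x, ‖x ^ k‖ ∂piece i = ∫ x, x ^ k ∂piece i ∧
    ∫ x, x ^ k ∂piece i = 25 / 4 * ((11 / 10) ^ (k + 1) - 1) / (k + 1) * ((3 / 2) ^ (k + 1) / 4) ^ i := by
  have h : (3 / 2 : ℝ) ^ i ≤ 11 / 10 * (3 / 2) ^ i := le_mul_of_one_le_left (by positivity) (by norm_num)
  refine ⟨(continuous_pow k).integrableOn_Ioc.integrable.smul_measure ENNReal.ofReal_ne_top,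
    integral_congr_ae (Measure.ae_smul_measure (ae_restrict_of_forall_mem measurableSet_Ioc
      fun x hx => Real.norm_of_nonneg (pow_nonneg (le_trans (by positivity) hx.1.le) _)) _), ?_⟩
  rw [piece, integral_smul_measure, ENNReal.toReal_ofReal (by positivity),
    ← intervalIntegral.integral_of_le h, integral_pow, div_pow (_ ^ _) (4 : ℝ), ← pow_mul, mul_pow,
    ← pow_mul, mul_comm i, smul_eq_mul, one_div, inv_pow, pow_mul]
  field_simp

lemma integ {k : ℕ} (hk : k ≤ 2) : Integrable (fun x => x ^ k) μ :=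
  integrable_sum_measure_iff.2 ⟨fun i => (pint i k).1, by
    simp only [(pint _ k).2.1, (pint _ k).2.2]
    exact (summable_geometric_of_lt_one (by positivity) (by interval_cases k <;> norm_num)).mul_left _⟩

lemma mono {i j : ℕ} (h : i ≤ j) : (3 / 2 : ℝ) ^ i ≤ (3 / 2) ^ j := pow_le_pow_right₀ (by norm_num) h

lemma tail {k : ℕ} (hk : k ≤ 2) (j : ℕ) : ∫ x in Ici ((3 / 2) ^ j), x ^ k ∂μ =
    25 / 4 * ((11 / 10) ^ (k + 1) - 1) / (k + 1) * ((3 / 2) ^ (k + 1) / 4) ^ j *
      (1 - (3 / 2) ^ (k + 1) / 4)⁻¹ := by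
  have h := (integ hk).integrableOn (s := Ici ((3 / 2) ^ j))
  rw [IntegrableOn, μ, Measure.restrict_sum _ measurableSet_Ici] at h
  rw [μ, Measure.restrict_sum _ measurableSet_Ici]
  have h1 := (hasSum_nat_add_iff' j).2 (hasSum_integral_measure h)
  rw [Finset.sum_eq_zero fun i hi => ?_, sub_zero] at h1
  · refine h1.unique ?_
    refine (congrArg (HasSum · _) (funext fun i => ?_)).mpr ((hasSum_geometric_of_lt_one
      (by positivity) (by clear h h1; interval_cases k <;> norm_num)).mul_left _)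
    rw [piece, Measure.restrict_smul, Measure.restrict_restrict measurableSet_Ici,
      inter_eq_right.2 (Ioc_subset_Ioi_self.trans (Ioi_subset_Ici (mono (Nat.le_add_left j i)))), ← piece, (pint _ k).2.2, pow_add _ i]
    ring
  · rw [piece, Measure.restrict_smul, Measure.restrict_restrict measurableSet_Ici,
      eq_empty_of_forall_notMem (s := _ ∩ _) fun x hx => ?_]
    · simp
    have := mono (Finset.mem_range.1 hi)
    rw [pow_succ] at this
    nlinarith [hx.2.2, show _ ≤ x from hx.1, show (0 : ℝ) < (3 / 2) ^ i by positivity]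

instance : IsFiniteMeasure μ := (integrable_const_iff_isFiniteMeasure one_ne_zero).1
  (by simpa using integ (k := 0) (by simp))

lemma mass (j : ℕ) : μ.real (Ici ((3 / 2) ^ j)) = (3 / 8) ^ j := by
  have := tail (k := 0) (by simp) j
  norm_num at this
  rw [this]; ring

lemma supp : μ.restrict (Ici ((3 / 2) ^ 0)) = μ :=
  Measure.restrict_eq_self_of_ae_mem (Measure.ae_sum_iff.2 fun i => Measure.ae_smul_measure
    (ae_restrict_of_forall_mem measurableSet_Ioc fun _ hx => (mono i.zero_le).trans hx.1.le) _)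

instance : IsProbabilityMeasure μ := isProbabilityMeasure_iff_real.2 (by
  rw [← supp, measureReal_restrict_apply_univ, mass, pow_zero])

lemma mean (j : ℕ) : ∫ x, x ∂μ[|Ici ((3 / 2) ^ j)] = (3 / 2) ^ (j + 1) := by
  have := tail (k := 1) (by simp) j
  norm_num at this
  rw [ProbabilityTheory.cond, integral_smul_measure, this, ENNReal.toReal_inv, ← measureReal_def, mass,
    show (9 / 16 : ℝ) = 3 / 8 * (3 / 2) by norm_num, mul_pow, smul_eq_mul]
  field_simp; ring

lemma top (n j : ℕ) : T n (μ[|Ici ((3 / 2) ^ j)]) (Ioi ((3 / 2) ^ (j + n + 1))) = 0 := by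
  induction n generalizing j with
  | zero => simp [T, mean]
  | succ n ih =>
    have a := ih (j + 1)
    have b := T_bdd n (μ[|Ici ((3 / 2) ^ j)][|Iio ((3 / 2) ^ (j + 1))])
      (b := (3 / 2) ^ (j + (n + 1) + 1)) (by positivity) (by
        rw [cond_apply measurableSet_Iio, eq_empty_of_forall_notMem (s := _ ∩ _) fun x hx =>
          (hx.1.trans_le (mono (by omega))).not_gt hx.2]
        simp)
    rw [show j + 1 + n + 1 = j + (n + 1) + 1 by ring] at a
    simp only [T, mean, Measure.add_apply, Measure.smul_apply, b,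
      cond_cond_eq_cond_inter measurableSet_Ici measurableSet_Ici,
      inter_eq_right.2 (Ici_subset_Ici.2 (mono j.le_succ)), a, smul_zero, add_zero]

lemma lower (n : ℕ) : ENNReal.ofReal (1 / 16 * (9 / 16) ^ n) ≤ W1 (T n μ) μ := by
  have a := top n 0
  rw [ProbabilityTheory.cond, supp, ← Measure.restrict_apply_univ (Ici _), supp, measure_univ, inv_one,
    one_smul, zero_add] at a
  have : IsProbabilityMeasure (T n μ) := ⟨T_univ n μ⟩
  refine le_trans ?_ (setLIntegral_le_lintegral (Ico ((3 / 2) ^ (n + 1)) ((3 / 2) ^ (n + 2))) _)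
  refine le_trans ?_ (setLIntegral_mono' measurableSet_Ico
    (f := fun _ => ENNReal.ofReal ((3 / 8) ^ (n + 2))) fun t ht => ?_)
  · rw [setLIntegral_const, Real.volume_Ico, ← ENNReal.ofReal_mul (by positivity)]
    refine ENNReal.ofReal_le_ofReal ?_
    rw [show (9 / 16 : ℝ) = 3 / 8 * (3 / 2) by norm_num, mul_pow]
    simp only [pow_succ]
    nlinarith [show (0 : ℝ) < (3 / 8) ^ n * (3 / 2) ^ n by positivity]
  · rw [← compl_Ioi, probReal_compl_eq_one_sub measurableSet_Ioi,
      probReal_compl_eq_one_sub measurableSet_Ioi, measureReal_def,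
      measure_mono_null (Ioi_subset_Ioi ht.1) a, Real.enorm_eq_ofReal (by simp), ← mass]
    exact ENNReal.ofReal_le_ofReal (by simpa using measureReal_mono (Ici_subset_Ioi.2 ht.2))

theorem result : ∃ μ : Measure ℝ, IsProbabilityMeasure μ ∧ μ ≪ volume ∧
    Integrable (fun x => x ^ 2) μ ∧
    (∀ n, ENNReal.ofReal (1 / 16 * (9 / 16) ^ n) ≤ W1 (T n μ) μ) ∧
    ((-Real.log 2 : ℝ) : EReal) < limsup (fun n : ℕ => (W1 (T n μ) μ).log / n) atTop := by
  refine ⟨μ, inferInstance, Measure.absolutelyContinuous_sum_left fun i =>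
    Measure.absolutelyContinuous_restrict.smul_left _, integ le_rfl, lower,
    lt_of_lt_of_le (b := ((Real.log (17 / 32) : ℝ) : EReal)) ?_ (le_limsup_of_frequently_le' (Eventually.frequently ?_))⟩
  · rw [EReal.coe_lt_coe_iff, ← Real.log_inv]
    exact Real.log_lt_log (by norm_num) (by norm_num)
  filter_upwards [(tendsto_pow_atTop_atTop_of_one_lt (show (1 : ℝ) < 18 / 17 by norm_num)).eventually_ge_atTop
    16, eventually_gt_atTop 0] with n h1 h2
  rw [EReal.le_div_iff_mul_le (by exact_mod_cast h2) (EReal.natCast_ne_top n), ← EReal.coe_coe_eq_natCast,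
    ← EReal.coe_mul, mul_comm, ← Real.log_pow, ← ENNReal.log_ofReal_of_pos (by positivity)]
  refine ENNReal.log_monotone ((ENNReal.ofReal_le_ofReal ?_).trans (lower n))
  rw [show (9 / 16 : ℝ) = 18 / 17 * (17 / 32) by norm_num, mul_pow]
  nlinarith [show (0 : ℝ) < (17 / 32) ^ n by positivity]

end Pool.Agent.Results.MP_a33f4b_pr.Slower
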